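import Pool.Agent.N625.PT.X1
import Pool.Agent.N625.PT.E

set_option autoImplicit false

/-! Classes of the laws of random integers whose exponential sums decay exponentially in the number of the good positions. -/

namespace Pool.Agent.L5helper16.XC
open Finset
open Pool.Agent.H807R2.Dav
open Pool.Agent.W93.AU
open Pool.Agent.W93.DG

open Classical in
/-- laws of random integers with `k` digits in base `b`: the exponential sums are at most `k ^ T μ ^ r` when there are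
`r + L` good positions for the multiple `M θ` of the frequency -/
structure PC (b : ℕ) (Φ : ℕ → (ℕ → ℝ) → Prop) (M L T : ℕ) : Prop where
  two : 2 ≤ b
  M1 : 1 ≤ M
  nn : ∀ k p, Φ k p → ∀ v, 0 ≤ p v
  sm : ∀ k p, Φ k p → ∑ v ∈ range (b ^ k), p v = 1
  dec : ∀ c : ℝ, 0 < c → c ≤ 1 / 4 → ∃ μ : ℝ, 0 < μ ∧ μ < 1 ∧ ∀ k p, Φ k p → ∀ (θ : ℝ) (r : ℕ),
    r + L ≤ ((range k).filter (fun j : ℕ => Gd b c ((b : ℝ) ^ j * ((M : ℝ) * θ)))).card →
    ‖∑ v ∈ range (b ^ k), (p v : ℂ) * ee (v * θ)‖ ≤ (k : ℝ) ^ T * μ ^ r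

lemma PC.nonneg {b : ℕ} {Φ : ℕ → (ℕ → ℝ) → Prop} {M L T : ℕ} (h : PC b Φ M L T) {k : ℕ} {p : ℕ → ℝ} (hp : Φ k p) (v : ℕ) :
    0 ≤ p v := h.nn k p hp v

lemma PC.sum {b : ℕ} {Φ : ℕ → (ℕ → ℝ) → Prop} {M L T : ℕ} (h : PC b Φ M L T) {k : ℕ} {p : ℕ → ℝ} (hp : Φ k p) :
    ∑ v ∈ range (b ^ k), p v = 1 := h.sm k p hp

/-- the factor of the frequencies -/
def Mg (b M : ℕ) (κ : ℤ) : ℕ := b.factorial * ((M : ℤ) * κ).natAbs

lemma Mg_pos {b M : ℕ} (hM : 1 ≤ M) (κ : ℤ) (hκ : κ ≠ 0) : 1 ≤ Mg b M κ := by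
  unfold Mg
  apply Nat.mul_pos b.factorial_pos
  rw [Int.natAbs_pos]
  exact mul_ne_zero (by exact_mod_cast (by omega : M ≠ 0)) hκ

end Pool.Agent.L5helper16.XC
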