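import Pool.Agent.L5helper16.XC.Base
import Pool.Agent.N794.CG.Eng

set_option autoImplicit false

/-! Classes of random integers: domination by random integers with decaying characteristic functions. -/

namespace Pool.Agent.L5helper16.XC
open Finset
open Pool.Agent.TH872
open Pool.Agent.H807R2.Dav
open Pool.Agent.W93.AU
open Pool.Agent.W93.DG
open Pool.Agent.N625.PT
open Pool.Agent.R459.Eq (Decays)
open Pool.Agent.N794.CG (Dom Mostly flex_unif Eng vac)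

/-- good places of a multiple -/
lemma gd_mul {b : ℕ} (m : ℕ) (hm : 1 ≤ m) (c : ℝ) (hc0 : 0 ≤ c) (hc : c ≤ 1) (y : ℝ) (h : Gd b c ((m : ℝ) * y)) :
    Gd b (c / (2 * (m : ℝ) ^ 2)) y := by
  intro u v huv hvb
  have h1 := h u v huv hvb
  have hmr : (1 : ℝ) ≤ m := by exact_mod_cast hm
  obtain ⟨z, hz⟩ : ∃ z, z = ee (((v - u : ℕ) : ℝ) * y) := ⟨_, rfl⟩
  have hz1 : ‖z‖ = 1 := by rw [hz]; exact norm_ee _
  have hvu : ((v - u : ℕ) : ℝ) = v - u := by rw [Nat.cast_sub huv.le]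
  have hpow : ∀ j : ℕ, ee (((j : ℕ) : ℝ) * (((v - u : ℕ) : ℝ) * y)) = z ^ j := by
    intro j
    rw [hz, ee_pow]
  have e1 : ee ((u : ℝ) * ((m : ℝ) * y)) + ee ((v : ℝ) * ((m : ℝ) * y)) = ee ((u : ℝ) * ((m : ℝ) * y)) * (1 + z ^ m) := by
    rw [← hpow m, mul_add, mul_one, ← ee_add]
    congr 2
    rw [hvu]
    ring
  have e2 : ee ((u : ℝ) * y) + ee ((v : ℝ) * y) = ee ((u : ℝ) * y) * (1 + z) := by
    rw [hz, mul_add, mul_one, ← ee_add]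
    congr 2
    rw [hvu]
    ring
  rw [e1, norm_mul, norm_ee, one_mul] at h1
  rw [e2, norm_mul, norm_ee, one_mul]
  have hdiff : ∀ j : ℕ, ‖1 - z ^ j‖ ≤ j * ‖1 - z‖ := by
    intro j
    induction j with
    | zero => simp
    | succ j ih =>
      have e1 : 1 - z ^ (j + 1) = (1 - z ^ j) + z ^ j * (1 - z) := by ring
      rw [e1]
      refine (norm_add_le _ _).trans ?_
      rw [norm_mul, norm_pow, hz1, one_pow, one_mul]
      push_cast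
      linarith
  have hpar : ∀ w : ℂ, ‖w‖ = 1 → ‖1 + w‖ ^ 2 + ‖1 - w‖ ^ 2 = 4 := by
    intro w hw
    have := parallelogram_law_with_norm ℝ (1 : ℂ) w
    rw [norm_one, hw] at this
    linarith
  have p1 := hpar (z ^ m) (by rw [norm_pow, hz1, one_pow])
  have p2 := hpar z hz1
  have q1 : ‖1 + z ^ m‖ ^ 2 ≤ (2 - c) ^ 2 := pow_le_pow_left₀ (norm_nonneg _) h1 2
  have q2 : ‖1 - z ^ m‖ ^ 2 ≤ (m * ‖1 - z‖) ^ 2 := pow_le_pow_left₀ (norm_nonneg _) (hdiff m) 2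
  have q3 : 2 * c ≤ (m : ℝ) ^ 2 * ‖1 - z‖ ^ 2 := by
    rw [mul_pow] at q2
    nlinarith
  have q4 : 2 * c / (m : ℝ) ^ 2 ≤ ‖1 - z‖ ^ 2 := by
    rw [div_le_iff₀ (by positivity)]
    linarith
  obtain ⟨c', hc'⟩ : ∃ c', c' = c / (2 * (m : ℝ) ^ 2) := ⟨_, rfl⟩
  rw [← hc']
  have e4 : 2 * c / (m : ℝ) ^ 2 = 4 * c' := by rw [hc']; field_simp; ring
  rw [e4] at q4
  have hc'1 : c' ≤ 1 := by
    rw [hc', div_le_one (by positivity)]
    nlinarith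
  have q5 : ‖1 + z‖ ^ 2 ≤ (2 - c') ^ 2 := by nlinarith
  exact abs_le_of_sq_le_sq' q5 (by linarith) |>.2

/-- multiples of the factor -/
lemma PC.mul {b : ℕ} {Φ : ℕ → (ℕ → ℝ) → Prop} {M L T : ℕ} (h : PC b Φ M L T) (m : ℕ) (hm : 1 ≤ m) : PC b Φ (M * m) L T := by
  classical
  refine ⟨h.two, Nat.mul_pos h.M1 hm, h.nn, h.sm, fun c hc0 hc1 => ?_⟩
  have hmr : (1 : ℝ) ≤ m := by exact_mod_cast hm
  obtain ⟨μ, hμ0, hμ1, h1⟩ := h.dec (c / (2 * (m : ℝ) ^ 2)) (by positivity) (by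
    refine le_trans (div_le_self hc0.le ?_) hc1
    nlinarith)
  refine ⟨μ, hμ0, hμ1, fun k p hp θ r hr => h1 k p hp θ r (hr.trans ?_)⟩
  apply card_le_card
  intro j hj
  rw [mem_filter] at hj ⊢
  refine ⟨hj.1, gd_mul m hm c hc0.le (by linarith) _ ?_⟩
  have e1 : (m : ℝ) * ((b : ℝ) ^ j * ((M : ℝ) * θ)) = (b : ℝ) ^ j * (((M * m : ℕ) : ℝ) * θ) := by
    push_cast
    ring
  rw [e1]
  exact hj.2

/-- weaker powers -/
lemma PC.mono {b : ℕ} {Φ : ℕ → (ℕ → ℝ) → Prop} {M L T L' : ℕ} (h : PC b Φ M L T) (hL : L ≤ L') : PC b Φ M L' T :=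
  ⟨h.two, h.M1, h.nn, h.sm, fun c hc0 hc1 => by
    obtain ⟨μ, hμ0, hμ1, h1⟩ := h.dec c hc0 hc1
    exact ⟨μ, hμ0, hμ1, fun k p hp θ r hr => h1 k p hp θ r (by omega)⟩⟩

/-- the class of the random integers with exchangeable blocks -/
theorem pc_flex (b L : ℕ) (hb : 2 ≤ b) (hL : 1 ≤ L) (η : ℝ) (hη0 : 0 < η) (hη1 : η ≤ 1) (T : ℕ) :
    PC b (fun k p => Flex b L η T k p) (b ^ L).factorial L T := by
  classical
  refine ⟨hb, Nat.factorial_pos _, fun k p hp v => hp.nonneg v, fun k p hp => hp.sum, fun c hc0 hc1 => ?_⟩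
  obtain ⟨M, hM⟩ : ∃ M, M = (b ^ L).factorial := ⟨_, rfl⟩
  have hM1 : (1 : ℝ) ≤ M := by rw [hM]; exact_mod_cast Nat.factorial_pos _
  obtain ⟨c', hc'⟩ : ∃ c', c' = c / (2 * (M : ℝ) ^ 2) := ⟨_, rfl⟩
  have hc'0 : 0 < c' := by rw [hc']; positivity
  have hc'c : c' ≤ c := by
    rw [hc']
    apply div_le_self hc0.le
    nlinarith
  have hLr : (1 : ℝ) ≤ L := by exact_mod_cast hL
  obtain ⟨w, hw⟩ : ∃ w, w = c' * η ^ 2 / (2 * L) := ⟨_, rfl⟩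
  have hw0 : 0 < w := by rw [hw]; positivity
  have hw1 : w ≤ 1 / 4 := by
    rw [hw, div_le_iff₀ (by positivity)]
    have : c' * η ^ 2 ≤ c' * 1 := mul_le_mul_of_nonneg_left (pow_le_one₀ hη0.le hη1) hc'0.le
    nlinarith
  obtain ⟨μ, hμ⟩ : ∃ μ, μ = 1 - w := ⟨_, rfl⟩
  have hμ0 : 0 < μ := by rw [hμ]; linarith
  have hμ1 : μ < 1 := by rw [hμ]; linarith
  have hμL : 1 - c' * η ^ 2 / 2 ≤ μ ^ L := by
    have h1 := one_add_mul_le_pow (a := -w) (by linarith) L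
    have h2 : 1 + (L : ℝ) * -w = 1 - c' * η ^ 2 / 2 := by
      rw [hw]
      field_simp
      ring
    rw [h2] at h1
    rw [hμ, sub_eq_add_neg 1 w]
    exact h1
  refine ⟨μ, hμ0, hμ1, fun k p hp θ r hr => ?_⟩
  obtain ⟨g, hg⟩ : ∃ g : ℕ → Prop, g = fun j => Gq b L c' ((b : ℝ) ^ j * θ) := ⟨_, rfl⟩
  have hact : r ≤ actL g L k := by
    have h1 : ((range k).filter (fun j : ℕ => Gd b c ((b : ℝ) ^ j * ((((b ^ L).factorial : ℕ) : ℝ) * θ)))).card ≤ actL g L k + L := by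
      unfold actL
      have h2 : (range k).filter (fun j : ℕ => Gd b c ((b : ℝ) ^ j * ((((b ^ L).factorial : ℕ) : ℝ) * θ))) ⊆
          (range k).filter (fun j => j + L ≤ k ∧ g j) ∪ Ico (k - L) k := by
        intro j hj
        rw [mem_filter, mem_range] at hj
        rw [mem_union, mem_filter, mem_range, mem_Ico]
        by_cases h : j + L ≤ k
        · left
          refine ⟨hj.1, h, ?_⟩
          rw [hg]
          simp only
          rw [hc', hM]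
          apply gq_of b L hb c hc0.le (by linarith)
          have e1 : (((b ^ L).factorial : ℕ) : ℝ) * ((b : ℝ) ^ j * θ) = (b : ℝ) ^ j * ((((b ^ L).factorial : ℕ) : ℝ) * θ) := by ring
          rw [e1]
          exact hj.2
        · right
          omega
      refine (card_le_card h2).trans ((card_union_le _ _).trans ?_)
      rw [Nat.card_Ico]
      omega
    omega
  obtain ⟨hp0, hp1, h, h1, h2, h3, h4, h5⟩ := hp
  have hZ := Z_bound hL hp0 h1 h2 h3 η hη0.le hη1 h5 θ c' μ hc'0.le (by linarith) hμ0.le hμ1.le hμL g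
    (fun j hj => by rw [hg] at hj; exact hj) k 0 0 (by omega) (by simp)
  have hZ' : Z b p θ k 0 = ∑ v ∈ range (b ^ k), (p v : ℂ) * ee (v * θ) := by
    unfold Z
    simp
  rw [hZ'] at hZ
  refine hZ.trans ?_
  apply mul_le_mul h4 _ (by positivity) (by positivity)
  exact pow_le_pow_of_le_one hμ0.le hμ1.le hact

/-- the far places are good -/
lemma far_le (b M k : ℕ) (hb : 2 ≤ b) (θ : ℝ) : ∃ c : ℝ, c = 4 * (1 / ((b : ℝ) ^ 2 * (b.factorial : ℝ))) ^ 2 ∧ 0 < c ∧ c ≤ 1 / 4 ∧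
    ∀ [DecidablePred (fun j : ℕ => Gd b c ((b : ℝ) ^ j * ((M : ℝ) * θ)))], Mir.farCount b (b.factorial * M) k θ ≤
      ((range k).filter (fun j : ℕ => Gd b c ((b : ℝ) ^ j * ((M : ℝ) * θ)))).card := by
  classical
  have hB2 : (2 : ℝ) ≤ b := by exact_mod_cast hb
  have hF1 : (1 : ℝ) ≤ (b.factorial : ℝ) := by exact_mod_cast b.factorial_pos
  obtain ⟨c, hc⟩ : ∃ c, c = 4 * (1 / ((b : ℝ) ^ 2 * (b.factorial : ℝ))) ^ 2 := ⟨_, rfl⟩
  have hc0 : 0 < c := by rw [hc]; positivity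
  have hc1 : c ≤ 1 / 4 := by
    rw [hc]
    have e1 : (4 : ℝ) ≤ (b : ℝ) ^ 2 * (b.factorial : ℝ) := by nlinarith
    have e2 : 1 / ((b : ℝ) ^ 2 * (b.factorial : ℝ)) ≤ 1 / 4 := one_div_le_one_div_of_le (by norm_num) e1
    have e3 : 0 ≤ 1 / ((b : ℝ) ^ 2 * (b.factorial : ℝ)) := by positivity
    nlinarith
  refine ⟨c, hc, hc0, hc1, ?_⟩
  intro _
  unfold Mir.farCount
  have h2 : (range k).filter (fun j => Mir.Far (1 / (b : ℝ) ^ 2) (((b.factorial * M : ℕ) : ℝ) * ((b : ℝ) ^ j * θ))) ⊆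
      (range k).filter (fun j : ℕ => Gd b c ((b : ℝ) ^ j * ((M : ℝ) * θ))) := by
    intro j hj
    rw [mem_filter] at hj ⊢
    refine ⟨hj.1, ?_⟩
    rw [hc]
    apply Pool.Agent.N794.CG.gd_of_far b hb
    have e1 : (b.factorial : ℝ) * ((b : ℝ) ^ j * ((M : ℝ) * θ)) = ((b.factorial * M : ℕ) : ℝ) * ((b : ℝ) ^ j * θ) := by
      push_cast
      ring
    rw [e1]
    exact hj.2
  refine le_trans (le_of_eq ?_) (card_le_card h2)
  congr!

/-- the two laws in one -/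
theorem pc_dom {b M L T : ℕ} {Φ : ℕ → (ℕ → ℝ) → Prop} (hC : PC b Φ M L T) :
    ∃ (A : ℕ) (γ : ℝ), 0 < γ ∧ γ < 1 ∧ ∀ k : ℕ, 1 ≤ k → ∀ p : ℕ → ℝ, Φ k p → ∀ κ c : ℤ,
      Dom b (b.factorial * (M * (b ^ 1).factorial)) A k γ κ ((k : ℝ) ^ T) (range (b ^ k)) p (fun v => c + κ * (v : ℕ)) := by
  classical
  have hb := hC.two
  have hb0 : (2 : ℝ) ≤ b := by exact_mod_cast hb
  obtain ⟨η', hη'⟩ : ∃ η' : ℝ, η' = 1 / (b : ℝ) := ⟨_, rfl⟩
  have hη'0 : 0 < η' := by rw [hη']; positivity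
  have hη'1 : η' ≤ 1 := by rw [hη', div_le_one (by linarith)]; linarith
  have hη'b : η' * (b : ℝ) ^ 1 ≤ 1 := by
    rw [hη', pow_one, one_div, inv_mul_cancel₀ (by positivity)]
  obtain ⟨L', hL'⟩ : ∃ L', L' = max L 1 := ⟨_, rfl⟩
  have hP := (hC.mul (b ^ 1).factorial (Nat.factorial_pos _)).mono (L' := L') (by omega)
  have hU0 := (pc_flex b 1 hb le_rfl η' hη'0 hη'1 0).mul M hC.M1
  rw [mul_comm] at hU0
  have hU := hU0.mono (L' := L') (by omega)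
  obtain ⟨c₁, hc₁, hc₁0, hc₁1, _⟩ := far_le b (M * (b ^ 1).factorial) 0 hb 0
  obtain ⟨μ₁, m1, m2, H₁⟩ := hP.dec c₁ hc₁0 hc₁1
  obtain ⟨μ₂, m3, m4, H₂⟩ := hU.dec c₁ hc₁0 hc₁1
  obtain ⟨μ, hμ⟩ : ∃ μ, μ = max μ₁ μ₂ := ⟨_, rfl⟩
  have hμ0 : 0 < μ := by rw [hμ]; exact lt_max_of_lt_left m1
  have hμ1 : μ < 1 := by rw [hμ]; exact max_lt m2 m4
  have hμa : μ₁ ≤ μ := by rw [hμ]; exact le_max_left _ _
  have hμb : μ₂ ≤ μ := by rw [hμ]; exact le_max_right _ _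
  obtain ⟨t, ht⟩ := exists_pow_lt_of_lt_one (show (0 : ℝ) < 1 / 2 by norm_num) hμ1
  refine ⟨L' + t + 1, μ, hμ0, hμ1, fun k hk p hp κ c => ?_⟩
  have hkT : (1 : ℝ) ≤ (k : ℝ) ^ T := one_le_pow₀ (by exact_mod_cast hk)
  obtain ⟨Q, hQ⟩ : ∃ Q : ℝ, Q = (k : ℝ) ^ T := ⟨_, rfl⟩
  rw [← hQ] at hkT ⊢
  have hQ0 : 0 < Q := by linarith
  have hQ1 : 1 / Q ≤ 1 := by rw [div_le_one hQ0]; exact hkT
  obtain ⟨w, hw⟩ : ∃ w : ℕ → ℝ, w = fun v => 1 / Q * p v + (1 - 1 / Q) * (1 / (b : ℝ) ^ k) := ⟨_, rfl⟩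
  have hu := flex_unif b 1 hb le_rfl η' hη'b hη'1 k
  have hdec : Decays b (b.factorial * (M * (b ^ 1).factorial)) (L' + t + 1) k μ κ (range (b ^ k)) w
      (fun v => c + κ * (v : ℕ)) := by
    have hw0 : ∀ i ∈ range (b ^ k), 0 ≤ w i := by
      intro i _
      rw [hw]
      have := hC.nonneg hp i
      have h1 : 0 ≤ 1 - 1 / Q := by linarith
      positivity
    have hw1 : ∑ i ∈ range (b ^ k), w i = 1 := by
      rw [hw, sum_add_distrib, ← mul_sum, ← mul_sum, hC.sum hp, hu.sum]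
      ring
    refine ⟨hw0, hw1, fun θ N hfar _ => ?_⟩
    have e1 : ∑ i ∈ range (b ^ k), (w i : ℂ) * ee (((c + κ * (i : ℕ) : ℤ) : ℝ) * θ) =
        ee ((c : ℝ) * θ) * (((1 / Q : ℝ) : ℂ) * ∑ v ∈ range (b ^ k), (p v : ℂ) * ee (v * ((κ : ℝ) * θ)) +
          ((1 - 1 / Q : ℝ) : ℂ) * ∑ v ∈ range (b ^ k), ((1 / (b : ℝ) ^ k : ℝ) : ℂ) * ee (v * ((κ : ℝ) * θ))) := by
      rw [hw]
      simp only [mul_sum, ← sum_add_distrib]
      refine sum_congr rfl fun v _ => ?_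
      have e2 : (((c + κ * (v : ℕ) : ℤ) : ℝ) * θ) = (c : ℝ) * θ + v * ((κ : ℝ) * θ) := by
        push_cast
        ring
      rw [e2, ee_add]
      push_cast
      ring
    rw [e1, norm_mul, norm_ee, one_mul]
    obtain ⟨r, hr⟩ : ∃ r, r = (L' + t + 1) * N + t := ⟨_, rfl⟩
    obtain ⟨c₂, hc₂, _, _, hfl⟩ := far_le b (M * (b ^ 1).factorial) k hb ((κ : ℝ) * θ)
    rw [← hc₁] at hc₂
    subst hc₂
    have hrL : r + L' ≤ ((range k).filter (fun j : ℕ => Gd b c₂ ((b : ℝ) ^ j * (((M * (b ^ 1).factorial : ℕ) : ℝ) *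
        ((κ : ℝ) * θ))))).card := by
      refine le_trans ?_ (hfar.trans hfl)
      rw [hr]
      nlinarith
    have g1 := H₁ k p hp ((κ : ℝ) * θ) r hrL
    have g2 := H₂ k _ hu ((κ : ℝ) * θ) r hrL
    rw [← hQ] at g1
    rw [pow_zero, one_mul] at g2
    have hμr : 0 ≤ μ ^ r := by positivity
    have g3 : μ₁ ^ r ≤ μ ^ r := pow_le_pow_left₀ m1.le hμa r
    have g4 : μ₂ ^ r ≤ μ ^ r := pow_le_pow_left₀ m3.le hμb r
    have n1 : ‖((1 / Q : ℝ) : ℂ) * ∑ v ∈ range (b ^ k), (p v : ℂ) * ee (v * ((κ : ℝ) * θ))‖ ≤ μ ^ r := by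
      rw [norm_mul, Complex.norm_real, Real.norm_eq_abs, abs_of_pos (by positivity)]
      calc 1 / Q * _ ≤ 1 / Q * (Q * μ₁ ^ r) := mul_le_mul_of_nonneg_left g1 (by positivity)
        _ = μ₁ ^ r := by field_simp
        _ ≤ μ ^ r := g3
    have n2 : ‖((1 - 1 / Q : ℝ) : ℂ) * ∑ v ∈ range (b ^ k), ((1 / (b : ℝ) ^ k : ℝ) : ℂ) * ee (v * ((κ : ℝ) * θ))‖ ≤ μ ^ r := by
      rw [norm_mul, Complex.norm_real, Real.norm_eq_abs, abs_of_nonneg (by linarith)]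
      calc (1 - 1 / Q) * _ ≤ 1 * μ ^ r := by
            apply mul_le_mul _ (g2.trans g4) (norm_nonneg _) (by norm_num)
            have : 0 < 1 / Q := by positivity
            linarith
        _ = μ ^ r := one_mul _
    refine (norm_add_le _ _).trans ((add_le_add n1 n2).trans ?_)
    have e3 : μ ^ r = μ ^ ((L' + t + 1) * N) * μ ^ t := by rw [hr, pow_add]
    have e4 : μ ^ ((L' + t + 1) * N) ≤ μ ^ N := by
      apply pow_le_pow_of_le_one hμ0.le hμ1.le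
      nlinarith
    have e5 : 0 ≤ μ ^ ((L' + t + 1) * N) := by positivity
    calc μ ^ r + μ ^ r = μ ^ ((L' + t + 1) * N) * (2 * μ ^ t) := by rw [e3]; ring
      _ ≤ μ ^ ((L' + t + 1) * N) * 1 := mul_le_mul_of_nonneg_left (by linarith) e5
      _ ≤ μ ^ N := by rw [mul_one]; exact e4
  intro P τ _ hP E hE hbad
  have h1 := hP ℕ _ _ _ hdec E hE hbad
  calc ∑ i ∈ E, p i ≤ ∑ i ∈ E, Q * w i := by
        apply sum_le_sum
        intro i _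
        rw [hw]
        have h2 : 0 ≤ (1 - 1 / Q) * (1 / (b : ℝ) ^ k) := mul_nonneg (by linarith) (by positivity)
        have h3 : Q * (1 / Q * p i + (1 - 1 / Q) * (1 / (b : ℝ) ^ k)) = p i + Q * ((1 - 1 / Q) * (1 / (b : ℝ) ^ k)) := by
          field_simp
        simp only
        rw [h3]
        have := mul_nonneg hQ0.le h2
        linarith
    _ = Q * ∑ i ∈ E, w i := (mul_sum _ _ _).symm
    _ ≤ Q * τ := mul_le_mul_of_nonneg_left h1 hQ0.le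

section
variable {S : Type} {τ : ℕ → ℝ} {Q : S → ℕ → ℤ → Prop}

/-- the classes of random integers -/
theorem eng_pc (hτ : ∀ X, 0 ≤ τ X) (H : Eng τ Q) {b M L T : ℕ} {Φ : ℕ → (ℕ → ℝ) → Prop} (hC : PC b Φ M L T) :
    ∃ W : ℕ, 1 ≤ W ∧ ∀ κ : ℤ, κ ≠ 0 → ∃ X₀ : ℕ, ∀ X : ℕ, X₀ ≤ X → ∀ (k : ℕ) (p : ℕ → ℝ), Φ k p → ∀ (c : ℤ) (s : S),
      Mostly (range (b ^ k)) p (fun v => c + κ * (v : ℕ)) ((k : ℝ) ^ T * τ X)
        (fun n => ∀ x : ℕ, X ≤ x → x ^ W ≤ b ^ k → Q s x n) := by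
  obtain ⟨A, γ, hγ0, hγ1, hdom⟩ := pc_dom hC
  obtain ⟨W, hW, J⟩ := H b hC.two A γ hγ0 hγ1
  refine ⟨W, hW, fun κ hκ => ?_⟩
  obtain ⟨X₀, K⟩ := J (b.factorial * (M * (b ^ 1).factorial)) κ (Nat.mul_pos (Nat.factorial_pos _)
    (Nat.mul_pos hC.M1 (Nat.factorial_pos _))) hκ
  refine ⟨X₀ + 2, fun X hX k p hp c s => ?_⟩
  rcases Nat.eq_zero_or_pos k with h0 | h0
  · refine Mostly.of_all (mul_nonneg (by positivity) (hτ X)) fun n x hXx hxW => ?_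
    rw [h0, pow_zero] at hxW
    have := vac W X x (by omega) hW hXx
    omega
  · exact K X (by omega) k _ _ _ _ _ (hdom k h0 p hp κ c) s

end

end Pool.Agent.L5helper16.XC
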