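import Pool.Agent.L5helper16.XC.Base
import Pool.Agent.N213.GF.G

set_option autoImplicit false

/-! The class of the random fields of digits. -/

namespace Pool.Agent.L5helper16.XC
open Finset
open Pool.Agent.H807R2.Dav
open Pool.Agent.W93.AU
open Pool.Agent.W93.DG
open Pool.Agent.N213.GF

open Classical in
theorem pc_field (b Δ : ℕ) (η : ℝ) (hb : 2 ≤ b) (hη : 0 < η) : PC b (GC b Δ η) 1 0 0 := by
  refine ⟨hb, le_rfl, ?_, ?_, ?_⟩
  · rintro k p ⟨A, hF⟩ v
    exact hF.nonneg v
  · rintro k p ⟨A, hF⟩
    exact hF.sum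
  · intro c hc0 hc1
    obtain ⟨M, hM⟩ : ∃ M, M = (Δ + 1) ^ 3 := ⟨_, rfl⟩
    have hM0 : 0 < M := by rw [hM]; positivity
    have hMr : (1 : ℝ) ≤ M := by exact_mod_cast hM0
    obtain ⟨η', hη'⟩ : ∃ η', η' = min η (1 / 2) := ⟨_, rfl⟩
    have hη0' : 0 < η' := by rw [hη']; exact lt_min hη (by norm_num)
    have hη2' : η' ≤ 1 / 2 := by rw [hη']; exact min_le_right _ _
    have hx0 : 0 < η' * c := by positivity
    have hx1 : η' * c ≤ 1 / 8 := by nlinarith
    obtain ⟨w, hw⟩ : ∃ w, w = η' * c / M := ⟨_, rfl⟩
    have hw0 : 0 < w := by rw [hw]; positivity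
    have hw1 : w ≤ 1 / 8 := by
      rw [hw]
      exact (div_le_self hx0.le hMr).trans hx1
    have hpow : 1 - η' * c ≤ (1 - w) ^ M := by
      have h1 := one_add_mul_le_pow (a := -w) (by linarith) M
      have h2 : 1 + (M : ℝ) * -w = 1 - η' * c := by
        rw [hw]
        field_simp
        ring
      rw [h2, ← sub_eq_add_neg] at h1
      exact h1
    refine ⟨1 - w, by linarith, by linarith, ?_⟩
    rintro k p ⟨A, hF⟩ θ r hr
    rw [pow_zero, one_mul]
    rcases Nat.eq_zero_or_pos k with hk | hk
    · subst hk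
      have hr0 : r = 0 := by
        have : ((range 0).filter (fun j : ℕ => Gd b c ((b : ℝ) ^ j * (((1 : ℕ) : ℝ) * θ)))).card = 0 := by simp
        rw [this] at hr
        omega
      have hpz : (1 - w) ^ 0 = 1 := pow_zero _
      rw [hr0, hpz]
      refine (norm_sum_le _ _).trans ?_
      have : ∀ v ∈ range (b ^ 0), ‖(p v : ℂ) * ee (v * θ)‖ = p v := by
        intro v _
        rw [norm_mul, norm_ee, mul_one, Complex.norm_real, Real.norm_eq_abs, abs_of_nonneg (hF.nonneg v)]
      rw [sum_congr rfl this]
      exact hF.sum.le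
    · have hh := eta_half hF hk
      have hηη : η' = η := by rw [hη']; exact min_eq_left hh
      rw [hηη] at hx1 hx0 hpow
      obtain ⟨G, hG⟩ : ∃ G : Finset ℕ, G = (range k).filter (fun j => Gd b c ((b : ℝ) ^ j * θ)) := ⟨_, rfl⟩
      have hGr : r ≤ G.card := by
        rw [hG]
        refine le_trans (le_trans (by omega) hr) (le_of_eq ?_)
        congr 1
        ext j
        simp only [Nat.cast_one, one_mul]
      obtain ⟨S, hSG, hS1, hS2⟩ := greedy hF.symm hF.degree G.card G (fun i hi => by
        rw [hG, mem_filter, mem_range] at hi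
        exact hi.1) le_rfl
      have h1 := char_field hb hF c θ hη.le (by linarith) S (fun i hi => by
        have := hSG hi
        rw [hG, mem_filter, mem_range] at this
        exact this.1) hS1 (fun i hi => by
        have := hSG hi
        rw [hG, mem_filter, mem_range] at this
        exact this.2)
      refine h1.trans ?_
      have h2 : (1 - η * c) ^ S.card ≤ ((1 - w) ^ M) ^ S.card := pow_le_pow_left₀ (by linarith) hpow _
      refine h2.trans ?_
      rw [← pow_mul]
      apply pow_le_pow_of_le_one (by linarith) (by linarith)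
      rw [hM]
      omega

end Pool.Agent.L5helper16.XC
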