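import Pool.Agent.L5helper16.XC.Base
import Pool.Agent.N625.GW.D

set_option autoImplicit false

/-! The class of the walks in a graph. -/

namespace Pool.Agent.L5helper16.XC
open Finset
open Pool.Agent.H807R2.Dav
open Pool.Agent.W93.AU
open Pool.Agent.W93.DG
open Pool.Agent.N625.DY (act)
open Pool.Agent.N625.GW

open Classical in
theorem pc_walks {X : Type} {b : ℕ} {δ : X → ℕ → Option X} (hG : Graph b δ) (x : X) (ρ : ℝ) (hρ : 0 < ρ) (hR : Rho b δ x ρ)
    (D₀ : ℕ) : PC b (WC b δ x ρ D₀) (b ^ 2).factorial 1 D₀ := by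
  have hb := two_le hG x
  refine ⟨hb, Nat.factorial_pos _, ?_, ?_, ?_⟩
  · rintro k p ⟨y, hy, rfl⟩ v
    simp only
    split_ifs <;> positivity
  · rintro k p ⟨y, hy, rfl⟩
    rw [w_sum k x y (fun _ => 1 / ((walks b δ k x y).card : ℝ)), sum_const, nsmul_eq_mul, mul_one_div]
    have := card_pos' hρ hy
    exact div_self (by exact_mod_cast this.ne')
  · intro c hc0 hc1
    have hρ2 := rho_two hG hR
    obtain ⟨M, hM⟩ : ∃ M, M = (b ^ 2).factorial := ⟨_, rfl⟩
    have hM1 : (1 : ℝ) ≤ M := by rw [hM]; exact_mod_cast Nat.factorial_pos _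
    obtain ⟨c', hc'⟩ : ∃ c', c' = c / (2 * (M : ℝ) ^ 2) := ⟨_, rfl⟩
    have hc'0 : 0 < c' := by rw [hc']; positivity
    have hc'c : c' ≤ c := by
      rw [hc']
      apply div_le_self hc0.le
      nlinarith
    obtain ⟨μ, hμ⟩ : ∃ μ, μ = Real.sqrt (1 - c' / ρ ^ 2) := ⟨_, rfl⟩
    have hcb : c' / ρ ^ 2 ≤ c' := div_le_self hc'0.le (by linarith)
    have hcb0 : 0 < c' / ρ ^ 2 := by positivity
    have hμ0 : 0 < μ := by rw [hμ]; exact Real.sqrt_pos.2 (by linarith)
    have hμ1 : μ < 1 := by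
      rw [hμ, Real.sqrt_lt' one_pos]
      linarith
    have hμ2 : μ ^ 2 = 1 - c' / ρ ^ 2 := by rw [hμ, Real.sq_sqrt (by linarith)]
    have hμ3 : ρ ^ 2 - c' = ρ ^ 2 * μ ^ 2 := by
      rw [hμ2]
      field_simp
    refine ⟨μ, hμ0, hμ1, ?_⟩
    rintro m p ⟨y, hy, rfl⟩ θ r hr
    obtain ⟨g, hg⟩ : ∃ g : ℕ → Prop, g = fun j => Gq b c' ((b : ℝ) ^ j * θ) := ⟨_, rfl⟩
    have hact : r ≤ act g m := by
      have h1 : ((range m).filter (fun j : ℕ => Gd b c ((b : ℝ) ^ j * ((((b ^ 2).factorial : ℕ) : ℝ) * θ)))).card ≤ act g m + 1 := by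
        have h2 : (range m).filter (fun j : ℕ => Gd b c ((b : ℝ) ^ j * ((((b ^ 2).factorial : ℕ) : ℝ) * θ))) ⊆
            (range (m - 1)).filter g ∪ {m - 1} := by
          intro j hj
          rw [mem_filter, mem_range] at hj
          rw [mem_union, mem_filter, mem_range, mem_singleton]
          by_cases hjm : j = m - 1
          · exact Or.inr hjm
          · left
            refine ⟨by omega, ?_⟩
            rw [hg]
            simp only
            rw [hc', hM]
            apply gq_of hb c hc0.le (by linarith)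
            have e1 : (((b ^ 2).factorial : ℕ) : ℝ) * ((b : ℝ) ^ j * θ) = (b : ℝ) ^ j * ((((b ^ 2).factorial : ℕ) : ℝ) * θ) := by ring
            rw [e1]
            exact hj.2
        refine (card_le_card h2).trans ((card_union_le _ _).trans ?_)
        rw [card_singleton]
        unfold act
        exact le_rfl
      omega
    have hN0 := card_pos' hρ hy
    have hZ := Z_final hG θ y ρ c' μ hρ (tame_reach hG hR m hN0) hc'0.le (by linarith) (by linarith) hμ0.le hμ1.le hμ3 g
      (fun j hj => by rw [hg] at hj; exact hj) m x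
    have e1 : ∑ v ∈ range (b ^ m), (((if v ∈ walks b δ m x y then 1 / ((walks b δ m x y).card : ℝ) else 0 : ℝ)) : ℂ) * ee (v * θ) =
        ((1 / ((walks b δ m x y).card : ℝ) : ℝ) : ℂ) * Z b δ θ y m x := by
      unfold Z
      rw [mul_sum, ← w_sum m x y]
      apply sum_congr rfl
      intro v _
      split_ifs <;> simp
    have hNr : (0 : ℝ) < (walks b δ m x y).card := by exact_mod_cast hN0
    simp only
    rw [e1, norm_mul, Complex.norm_real, Real.norm_eq_abs, abs_of_pos (by positivity)]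
    have h3 : ρ ^ m * μ ^ act g m ≤ ((m : ℝ) ^ D₀ * (walks b δ m x y).card) * μ ^ r :=
      mul_le_mul hy (pow_le_pow_of_le_one hμ0.le hμ1.le hact) (by positivity) (by positivity)
    calc 1 / ((walks b δ m x y).card : ℝ) * ‖Z b δ θ y m x‖ ≤
        1 / ((walks b δ m x y).card : ℝ) * (((m : ℝ) ^ D₀ * (walks b δ m x y).card) * μ ^ r) :=
          mul_le_mul_of_nonneg_left (hZ.trans h3) (by positivity)
      _ = _ := by field_simp

end Pool.Agent.L5helper16.XC
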